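import Pool.Agent.H26.LP.Stm

/-!
# Module MAT (helper82): the matrix of the Cauchy transforms
-/

set_option autoImplicit false

namespace Pool.Agent.H82.LP

open MeasureTheory Set Metric Filter Topology
open scoped ENNReal NNReal
open Pool.Agent.Q130.TR

/-- MODULE MAT -/
theorem mat (hTRN : Pool.Agent.H26.LP.S_TRN) (hHSB : S_HSB) (hAPX : Pool.Agent.H50.SM.S_APX) :
    Pool.Agent.H26.LP.S_MAT := by
  obtain ⟨C₀, hC₀, hA⟩ := hAPX
  refine ⟨C₀, hC₀, ?_⟩
  intro S _ μ _ φ w f B Y hφ hw hf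
  obtain ⟨p, q, hp, hq, _, _, hpq⟩ := hTRN S μ w f B Y hw hf
  have e : ∀ z, (fun i j => Pool.Agent.Q130.TC.cau μ φ (fun s => w i s * f j s) z) =
      Fm φ p q z := by
    intro z
    funext i j
    exact (hpq φ i j z).symm
  simp only [e]
  exact ⟨(hHSB.1 S μ φ hφ p q hp hq).2.1, hA S μ φ hφ p q hp hq⟩

end Pool.Agent.H82.LP
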