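import Pool.Agent.H26.LP.Stm

/-!
# Module MNY (helper82): the integral over the complement of finitely many small sets
-/

set_option autoImplicit false

namespace Pool.Agent.H82.LP

open MeasureTheory Set Metric Filter Topology
open scoped ENNReal NNReal

/-- MODULE MNY -/
theorem mny : Pool.Agent.H26.LP.S_MNY := by
  intro l W hl hl0 hW hW0 m b B η hη h hb
  have hWl : Integrable fun z => W z * l z := by
    refine Integrable.mono' hl (hW.aestronglyMeasurable.mul hl.aestronglyMeasurable)
      (Eventually.of_forall fun z => ?_)
    rw [norm_mul, Real.norm_of_nonneg (hW0 z).1, Real.norm_of_nonneg (hl0 z)]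
    exact mul_le_of_le_one_left (hl0 z) (hW0 z).2
  have hsum : ∀ᵐ z, η * l z ≤ W z * l z + ∑ i ∈ Finset.range m, η * (toMeasurable
      (volume.withDensity fun z => ENNReal.ofReal (l z)) (b i)).indicator l z := by
    filter_upwards [h] with z hz
    by_cases hb' : ∀ i < m, z ∉ b i
    · have h1 : 0 ≤ ∑ i ∈ Finset.range m, η * (toMeasurable (volume.withDensity
          fun z => ENNReal.ofReal (l z)) (b i)).indicator l z :=
        Finset.sum_nonneg fun i _ => mul_nonneg hη.le (indicator_nonneg (fun _ _ => hl0 _) _)
      have h2 := mul_le_mul_of_nonneg_right (hz hb') (hl0 z)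
      linarith
    · push Not at hb'
      obtain ⟨i, him, hi⟩ := hb'
      have h1 : η * l z ≤ ∑ i ∈ Finset.range m, η * (toMeasurable (volume.withDensity
          fun z => ENNReal.ofReal (l z)) (b i)).indicator l z := by
        refine le_trans ?_ (Finset.single_le_sum (f := fun i => η * (toMeasurable
          (volume.withDensity fun z => ENNReal.ofReal (l z)) (b i)).indicator l z)
          (fun j _ => mul_nonneg hη.le (indicator_nonneg (fun _ _ => hl0 _) _))
          (Finset.mem_range.2 him))
        rw [indicator_of_mem (subset_toMeasurable _ _ hi)]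
      have h2 := mul_nonneg (hW0 z).1 (hl0 z)
      linarith
  have hint : ∀ i, ∫ z, (toMeasurable (volume.withDensity
      fun z => ENNReal.ofReal (l z)) (b i)).indicator l z = ∫ z in b i, l z := by
    intro i
    rw [integral_indicator (measurableSet_toMeasurable _ _)]
    rw [integral_eq_lintegral_of_nonneg_ae (Eventually.of_forall hl0)
      hl.aestronglyMeasurable.restrict,
      integral_eq_lintegral_of_nonneg_ae (Eventually.of_forall hl0)
      hl.aestronglyMeasurable.restrict]
    congr 1
    rw [← withDensity_apply' _ (toMeasurable _ _), ← withDensity_apply' _ (b i),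
      measure_toMeasurable]
  calc η * ∫ z, l z = ∫ z, η * l z := (integral_const_mul _ _).symm
    _ ≤ ∫ z, (W z * l z + ∑ i ∈ Finset.range m, η * (toMeasurable (volume.withDensity
      fun z => ENNReal.ofReal (l z)) (b i)).indicator l z) := by
        refine integral_mono_ae (hl.const_mul _) (hWl.add (integrable_finsetSum _ fun i _ =>
          (hl.indicator (measurableSet_toMeasurable _ _)).const_mul _)) hsum
    _ = (∫ z, W z * l z) + ∑ i ∈ Finset.range m, η * ∫ z in b i, l z := by
        rw [integral_add hWl (integrable_finsetSum _ fun i _ =>
          (hl.indicator (measurableSet_toMeasurable _ _)).const_mul _),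
          integral_finsetSum _ fun i _ =>
          (hl.indicator (measurableSet_toMeasurable _ _)).const_mul _]
        congr 1
        refine Finset.sum_congr rfl fun i _ => ?_
        rw [integral_const_mul, hint]
    _ ≤ _ := by
        rw [Finset.mul_sum]
        refine add_le_add le_rfl (Finset.sum_le_sum fun i hi =>
          mul_le_mul_of_nonneg_left (hb i (Finset.mem_range.1 hi)) hη.le)

end Pool.Agent.H82.LP
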