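import Pool.Agent.H26.LP.Stm

/-!
# Module EVJ (helper82): point evaluations and cyclic vectors
-/

set_option autoImplicit false

namespace Pool.Agent.H82.LP

open MeasureTheory Set Metric Filter Topology
open Pool.Agent.H26.LP

section
variable {E : Type} [NormedAddCommGroup E] [NormedSpace ℂ E]

/-- the map `p ↦ p(T) y` -/
noncomputable def eL (T : E →L[ℂ] E) (y : E) : Polynomial ℂ →ₗ[ℂ] E where
  toFun p := Polynomial.aeval T p y
  map_add' p q := by simp
  map_smul' c p := by simp

theorem eL_apply (T : E →L[ℂ] E) (y : E) (p : Polynomial ℂ) :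
    eL T y p = Polynomial.aeval T p y := rfl

theorem eL_X (T : E →L[ℂ] E) (y : E) (p : Polynomial ℂ) :
    eL T y (Polynomial.X * p) = T (eL T y p) := by
  rw [eL_apply, eL_apply, map_mul, Polynomial.aeval_X]
  rfl

theorem eL_one (T : E →L[ℂ] E) (y : E) : eL T y 1 = y := by
  rw [eL_apply, map_one]
  rfl

/-- the closure of the image of a submodule of polynomials which is invariant under the
multiplication by `X` is invariant -/
theorem inv {T : E →L[ℂ] E} {y : E} {M : Submodule ℂ (Polynomial ℂ)}
    (hM : ∀ p ∈ M, Polynomial.X * p ∈ M) :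
    ∀ x ∈ (M.map (eL T y)).topologicalClosure, T x ∈ (M.map (eL T y)).topologicalClosure := by
  intro x hx
  have h : x ∈ closure ((M.map (eL T y) : Submodule ℂ E) : Set E) := hx
  have h2 : T x ∈ closure ((M.map (eL T y) : Submodule ℂ E) : Set E) := by
    refine map_mem_closure T.continuous h ?_
    rintro _ ⟨p, hp, rfl⟩
    exact ⟨Polynomial.X * p, hM p hp, eL_X T y p⟩
  exact h2

end

/-- MODULE EVJ -/
theorem evj : S_EVJ := by
  intro E _ _ _ T hD
  constructor
  · intro y a C hC
    have h1 := hC 1
    rw [Polynomial.eval_one, norm_one, map_one] at h1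
    have h1' : 1 ≤ C * ‖y‖ := h1
    have hy : y ≠ 0 := by
      rintro rfl
      rw [norm_zero, mul_zero] at h1'
      linarith
    have hCpos : 0 < C := by
      by_contra hcon
      have h2 : C * ‖y‖ ≤ 0 := mul_nonpos_of_nonpos_of_nonneg (not_lt.1 hcon) (norm_nonneg _)
      linarith
    set M : Submodule ℂ (Polynomial ℂ) := LinearMap.ker (Polynomial.leval a) with hM
    have hmem : ∀ p : Polynomial ℂ, p ∈ M ↔ p.eval a = 0 := by
      intro p
      rw [hM, LinearMap.mem_ker]
      rfl
    have hMX : ∀ p ∈ M, Polynomial.X * p ∈ M := by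
      intro p hp
      rw [hmem] at hp ⊢
      rw [Polynomial.eval_mul, hp, mul_zero]
    have hyV : y ∉ (M.map (eL T y)).topologicalClosure := by
      intro hyc
      have h : y ∈ closure ((M.map (eL T y) : Submodule ℂ E) : Set E) := hyc
      rw [Metric.mem_closure_iff] at h
      obtain ⟨_, ⟨q, hq, rfl⟩, hd⟩ := h (1 / C) (by positivity)
      have hq' : q.eval a = 0 := (hmem q).1 hq
      have h3 := hC (1 - q)
      rw [Polynomial.eval_sub, hq', Polynomial.eval_one, sub_zero, norm_one] at h3
      have h4 : Polynomial.aeval T (1 - q) y = y - eL T y q := by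
        rw [map_sub, map_one]
        rfl
      rw [h4] at h3
      rw [dist_eq_norm, lt_div_iff₀ hCpos] at hd
      linarith
    by_cases hV : (M.map (eL T y)).topologicalClosure = ⊥
    · have hT : T y = a • y := by
        have h5 : eL T y (Polynomial.X - Polynomial.C a) ∈
            (M.map (eL T y)).topologicalClosure := by
          refine Submodule.le_topologicalClosure _ ⟨_, ?_, rfl⟩
          show Polynomial.X - Polynomial.C a ∈ M
          rw [hmem]
          simp
        rw [hV, Submodule.mem_bot, eL_apply, map_sub, Polynomial.aeval_X, Polynomial.aeval_C] at h5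
        have h6 : T y - a • y = 0 := by
          have h7 : (T - algebraMap ℂ (E →L[ℂ] E) a) y = T y - a • y := by
            rw [Algebra.algebraMap_eq_smul_one]
            rfl
          rw [← h7]
          exact h5
        exact sub_eq_zero.1 h6
      refine ⟨Submodule.span ℂ {y}, Submodule.closed_of_finiteDimensional _, ?_, ?_, ?_⟩
      · rw [Ne, Submodule.span_singleton_eq_bot]
        exact hy
      · intro htop
        apply hD
        refine ⟨y, fun z => ?_⟩
        have hz : z ∈ Submodule.span ℂ {y} := by
          rw [htop]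
          trivial
        obtain ⟨t, ht⟩ := Submodule.mem_span_singleton.1 hz
        exact ⟨t, ht.symm⟩
      · intro x hx
        obtain ⟨t, rfl⟩ := Submodule.mem_span_singleton.1 hx
        rw [map_smul, hT]
        exact Submodule.smul_mem _ _ (Submodule.smul_mem _ _
          (Submodule.mem_span_singleton_self y))
    · refine ⟨(M.map (eL T y)).topologicalClosure,
        Submodule.isClosed_topologicalClosure _, hV, ?_, inv hMX⟩
      intro htop
      apply hyV
      rw [htop]
      trivial
  · intro hNI y hy y' ε hε
    have hV : ((⊤ : Submodule ℂ (Polynomial ℂ)).map (eL T y)).topologicalClosure = ⊤ := by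
      by_contra hne
      apply hNI
      refine ⟨_, Submodule.isClosed_topologicalClosure _, ?_, hne, inv (fun p _ => trivial)⟩
      intro hbot
      have h1 : eL T y 1 ∈ ((⊤ : Submodule ℂ (Polynomial ℂ)).map (eL T y)).topologicalClosure :=
        Submodule.le_topologicalClosure _ ⟨1, trivial, rfl⟩
      rw [hbot, Submodule.mem_bot, eL_one] at h1
      exact hy h1
    have h2 : y' ∈ ((⊤ : Submodule ℂ (Polynomial ℂ)).map (eL T y)).topologicalClosure := by
      rw [hV]
      trivial
    have h3 : y' ∈ closure (((⊤ : Submodule ℂ (Polynomial ℂ)).map (eL T y) :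
      Submodule ℂ E) : Set E) := h2
    rw [Metric.mem_closure_iff] at h3
    obtain ⟨_, ⟨p, _, rfl⟩, hd⟩ := h3 ε hε
    rw [dist_eq_norm] at hd
    exact ⟨p, hd.le⟩

end Pool.Agent.H82.LP
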