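import Pool.Agent.H26.LP.Stm

/-!
# Module FRE (helper82): the row vector
-/

set_option autoImplicit false

namespace Pool.Agent.H82.LP

open MeasureTheory Set Metric Filter Topology
open Pool.Agent.H26.LP Pool.Agent.Q130.TR

/-- a sequence with a new first term is square summable -/
theorem sq_cs {a : ℂ} {c : ℕ → ℂ} (hc : Sq c) : Sq (cs a c) := by
  unfold Sq
  rw [← summable_nat_add_iff 1]
  exact hc

/-- normalisation -/
theorem fre_norm (hL : S_L2B) {A : ℕ → ℕ → ℂ} {b : ℕ → ℂ} (hb : Sq b) (hR : RK A b) {j : ℕ}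
    (hj : b j ≠ 0) : ∃ b : ℕ → ℂ, Sq b ∧ n2 b = 1 ∧ RK A b := by
  have h1 : ‖b j‖ ≤ n2 b := hL.2.2.2.2.2.1 b hb j
  have h2 : 0 < n2 b := (norm_pos_iff.2 hj).trans_le h1
  obtain ⟨h3, h4⟩ := hL.2.1 (((n2 b)⁻¹ : ℝ) : ℂ) b hb
  refine ⟨fun i => (((n2 b)⁻¹ : ℝ) : ℂ) * b i, h3, ?_, ?_⟩
  · rw [h4, Complex.norm_real, Real.norm_eq_abs, abs_of_pos (inv_pos.2 h2)]
    exact inv_mul_cancel₀ h2.ne'
  · intro j
    show (((n2 b)⁻¹ : ℝ) : ℂ) * b (j + 1) = ∑' i, A i (j + 1) * ((((n2 b)⁻¹ : ℝ) : ℂ) * b i)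
    rw [hR j, ← tsum_mul_left]
    refine tsum_congr fun i => ?_
    ring

/-- the transposed matrix without the first row and column -/
theorem hs_sw {A : ℕ → ℕ → ℂ} (hA : HS A) : HS (fun i j => A (j + 1) (i + 1)) := by
  have h0 : Summable (fun p : ℕ × ℕ => ‖A p.1 p.2‖ ^ 2) := hA
  let e : ℕ × ℕ → ℕ × ℕ := fun p => (p.2 + 1, p.1 + 1)
  have h1 : Function.Injective e := by
    intro x y h
    have h2 := congrArg Prod.fst h
    have h3 := congrArg Prod.snd h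
    simp only [e] at h2 h3
    exact Prod.ext (by omega) (by omega)
  have h2 : Summable ((fun p : ℕ × ℕ => ‖A p.1 p.2‖ ^ 2) ∘ e) := h0.comp_injective h1
  show Summable (fun p : ℕ × ℕ => ‖A (p.2 + 1) (p.1 + 1)‖ ^ 2)
  exact h2

/-- the first row -/
theorem hs_row {A : ℕ → ℕ → ℂ} (hA : HS A) : Sq (fun i => A 0 (i + 1)) := by
  have h0 : Summable (fun p : ℕ × ℕ => ‖A p.1 p.2‖ ^ 2) := hA
  let e : ℕ → ℕ × ℕ := fun i => (0, i + 1)
  have h1 : Function.Injective e := by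
    intro x y h
    have h3 := congrArg Prod.snd h
    simp only [e] at h3
    omega
  have h2 : Summable ((fun p : ℕ × ℕ => ‖A p.1 p.2‖ ^ 2) ∘ e) := h0.comp_injective h1
  show Summable (fun i : ℕ => ‖A 0 (i + 1)‖ ^ 2)
  exact h2

/-- the equation -/
theorem fre_eq (hL : S_L2B) {A : ℕ → ℕ → ℂ} (hA : HS A) {a : ℂ} {c : ℕ → ℂ} (hc : Sq c)
    (h : ∀ i, c i - act (fun i j => A (j + 1) (i + 1)) c i = a * A 0 (i + 1)) :
    RK A (cs a c) := by
  have hB := hs_sw hA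
  intro j
  obtain ⟨h1, _, _⟩ := hL.2.2.1 _ c hB hc
  have h2 : Summable fun i => A i (j + 1) * cs a c i := by
    rw [← summable_nat_add_iff 1]
    exact h1 j
  rw [h2.tsum_eq_zero_add]
  have h3 := h j
  have h4 : ∑' i, A (i + 1) (j + 1) * cs a c (i + 1) =
      act (fun i j => A (j + 1) (i + 1)) c j := rfl
  rw [h4]
  show c j = A 0 (j + 1) * a + act (fun i j => A (j + 1) (i + 1)) c j
  linear_combination h3

/-- MODULE FRE -/
theorem fre (hL : S_L2B) (hF : S_FRD) : S_FRE := by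
  intro A hA
  have hB := hs_sw hA
  by_cases hk : ∀ c, Sq c → (∀ i, c i = act (fun i j => A (j + 1) (i + 1)) c i) → ∀ j, c j = 0
  · have hs : Sq fun i => A 0 (i + 1) := hs_row hA
    obtain ⟨c, hc, h2⟩ := (hF _ hB hk).2.1 _ hs
    have h3 : RK A (cs 1 c) := fre_eq hL hA hc fun i => by rw [h2 i, one_mul]
    exact fre_norm hL (sq_cs hc) h3 (j := 0) (by show (1 : ℂ) ≠ 0; exact one_ne_zero)
  · push Not at hk
    obtain ⟨c, hc, h2, j, hj⟩ := hk
    have h3 : RK A (cs 0 c) := fre_eq hL hA hc fun i => by rw [← h2 i, sub_self, zero_mul]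
    exact fre_norm hL (sq_cs hc) h3 (j := j + 1) hj

end Pool.Agent.H82.LP
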